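import Pool.Agent.Helper18.CGH.C

/-!
# Row HYP
-/

namespace Pool.Agent.Helper18.CGH

set_option linter.unusedSectionVars false

open MvPolynomial Matrix Pool.Agent.Helper97.CG

universe u

section Frac

variable (k : Type u) [Field k] (N : Type)

/-- the involution of the function field of `N ⊕ N` -/
noncomputable def th : FractionRing (MvPolynomial (N ⊕ N) k) ≃+*
    FractionRing (MvPolynomial (N ⊕ N) k) :=
  IsFractionRing.ringEquivOfRingEquiv (K := FractionRing (MvPolynomial (N ⊕ N) k))
    (L := FractionRing (MvPolynomial (N ⊕ N) k))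
    ((renameEquiv k (Equiv.sumComm N N)).toRingEquiv)

variable {k N}

lemma th_algebraMap (p : MvPolynomial (N ⊕ N) k) :
    th k N (algebraMap _ (FractionRing (MvPolynomial (N ⊕ N) k)) p) =
      algebraMap _ _ (rename (Sum.swap : N ⊕ N → N ⊕ N) p) := by
  rw [th, IsFractionRing.ringEquivOfRingEquiv_algebraMap]
  rfl

lemma swap_swap_rename (p : MvPolynomial (N ⊕ N) k) :
    rename (Sum.swap : N ⊕ N → N ⊕ N) (rename (Sum.swap : N ⊕ N → N ⊕ N) p) = p := by
  rw [rename_rename]
  have : (Sum.swap ∘ Sum.swap : N ⊕ N → N ⊕ N) = id := by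
    funext x
    rcases x with x | x <;> rfl
  rw [this, rename_id, AlgHom.id_apply]

lemma th_th (x : FractionRing (MvPolynomial (N ⊕ N) k)) : th k N (th k N x) = x := by
  obtain ⟨a, c, hc, rfl⟩ := IsFractionRing.div_surjective (A := MvPolynomial (N ⊕ N) k) x
  rw [map_div₀, map_div₀, th_algebraMap, th_algebraMap, th_algebraMap, th_algebraMap,
    swap_swap_rename, swap_swap_rename]

lemma th_const (c : k) : th k N (algebraMap k _ c) = algebraMap k _ c := by
  rw [IsScalarTower.algebraMap_apply k (MvPolynomial (N ⊕ N) k)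
    (FractionRing (MvPolynomial (N ⊕ N) k)), th_algebraMap, MvPolynomial.algebraMap_eq, rename_C]

/-- the involution as a homomorphism of `k`-algebras -/
noncomputable def thA : FractionRing (MvPolynomial (N ⊕ N) k) →ₐ[k]
    FractionRing (MvPolynomial (N ⊕ N) k) :=
  { (th k N : FractionRing (MvPolynomial (N ⊕ N) k) →+* FractionRing (MvPolynomial (N ⊕ N) k)) with
    commutes' := th_const }

end Frac

section Forms

variable {k : Type u} [Field k] {r : ℕ} {ε : k}

lemma isForm_JR {Jr : Matrix (Fin r) (Fin r) k} (h : IsForm ε Jr) : IsForm ε (JR Jr) where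
  eps := h.eps
  symm := by
    rw [JR, fromBlocks_transpose, fromBlocks_smul, h.symm, transpose_zero, smul_zero]
  det_ne := by
    intro h1
    have h2 : (JR Jr) * (JR Jr) = fromBlocks (Jr * Jr) 0 0 (Jr * Jr) := by
      rw [JR, fromBlocks_multiply]
      simp only [Matrix.zero_mul, Matrix.mul_zero, zero_add, add_zero]
    have h3 := congrArg Matrix.det h2
    rw [det_mul, h1, mul_zero, det_fromBlocks_zero₂₁, det_mul] at h3
    exact mul_ne_zero (mul_ne_zero h.det_ne h.det_ne) (mul_ne_zero h.det_ne h.det_ne) h3.symm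

lemma isForm_HE (hε : ε = 1 ∨ ε = -1) : IsForm ε (HE r ε) where
  eps := hε
  symm := by
    have hs : ε * ε = 1 := by rcases hε with rfl | rfl <;> ring
    rw [HE, fromBlocks_transpose, fromBlocks_smul, transpose_zero, smul_zero, transpose_smul,
      transpose_one, smul_smul, hs, one_smul]
  det_ne := by
    have hs : ε * ε = 1 := by rcases hε with rfl | rfl <;> ring
    intro h1
    have h2 : (HE r ε) * (HE r ε) = fromBlocks (ε • 1) 0 0 (ε • 1) := by
      rw [HE, fromBlocks_multiply]
      simp only [Matrix.zero_mul, Matrix.mul_zero, zero_add, add_zero, Matrix.one_mul,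
        Matrix.mul_one]
    have h3 := congrArg Matrix.det h2
    rw [det_mul, h1, mul_zero, det_fromBlocks_zero₂₁, det_smul, det_one, mul_one] at h3
    have h4 : ε ≠ 0 := left_ne_zero_of_mul_eq_one hs
    exact mul_ne_zero (pow_ne_zero _ h4) (pow_ne_zero _ h4) h3.symm

/-- the relation between `A` and `C` -/
lemma bA_rel [CharZero k] {R' : Type*} [Field R'] [Algebra k R'] {b : ℕ} {d : Bool}
    {JN : Matrix (Fin r ⊕ Fin r) (Fin r ⊕ Fin r) k} (hs : IsSg ε d) (hJN : JNᵀ = ε • JN)
    (β : BI b r d → R') : bA ε JN β + algebraMap k R' ε • (bA ε JN β)ᵀ +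
      (bC β)ᵀ * JN.map (algebraMap k R') * bC β = 0 := by
  have h1 := skw_transpose (hs.map (algebraMap k R')) (fun p => β (Sum.inl (Sum.inr p)))
  have hJ2 : (JN.map (algebraMap k R'))ᵀ = algebraMap k R' ε • JN.map (algebraMap k R') := by
    ext i j
    have h1 := congrFun (congrFun hJN i) j
    show algebraMap k R' (JN j i) = algebraMap k R' ε * algebraMap k R' (JN i j)
    rw [← map_mul]
    exact congrArg (algebraMap k R') h1
  have h2 : ((bC β)ᵀ * JN.map (algebraMap k R') * bC β)ᵀ =
      algebraMap k R' ε • ((bC β)ᵀ * JN.map (algebraMap k R') * bC β) := by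
    rw [transpose_mul, transpose_mul, transpose_transpose, hJ2, Matrix.smul_mul, Matrix.mul_smul,
      Matrix.mul_assoc]
  have h3 : (2⁻¹ : k) • ((bC β)ᵀ * JN.map (algebraMap k R') * bC β) +
      (2⁻¹ : k) • ((bC β)ᵀ * JN.map (algebraMap k R') * bC β) =
      (bC β)ᵀ * JN.map (algebraMap k R') * bC β := by
    rw [← add_smul]
    have : (2⁻¹ : k) + 2⁻¹ = 1 := by norm_num
    rw [this, one_smul]
  have h4 : bA ε JN β = skw (algebraMap k R' ε) (fun p => β (Sum.inl (Sum.inr p))) -
    (2⁻¹ : k) • ((bC β)ᵀ * JN.map (algebraMap k R') * bC β) := rfl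
  rw [h4, transpose_sub, transpose_smul, h1, h2]
  generalize (bC β)ᵀ * JN.map (algebraMap k R') * bC β = Q at h3 ⊢
  generalize skw (algebraMap k R' ε) (fun p => β (Sum.inl (Sum.inr p))) = K
  have h5 : K - (2⁻¹ : k) • Q + (-K - (2⁻¹ : k) • Q) + Q = 0 := by
    have : K - (2⁻¹ : k) • Q + (-K - (2⁻¹ : k) • Q) + Q = Q - ((2⁻¹ : k) • Q + (2⁻¹ : k) • Q) := by
      abel
    rw [this, h3, sub_self]
  rcases hs with ⟨_, rfl⟩ | ⟨_, rfl⟩
  · simp only [map_neg, map_one, neg_smul, one_smul, neg_neg, smul_neg]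
    rw [← h5]
    abel
  · simp only [map_one, one_smul]
    exact h5

end Forms

section Main

variable {k : Type u} [Field k] [IsAlgClosed k] [CharZero k]

theorem st_HYP (hE : ST_EQV k) (hD : ST_DIAG.{u}) (hW : ST_WIT.{u}) (hG : ST_GNZ k) :
    ST_HYP k := by
  intro b r ε d Jr hs hJ hpar
  rcases Nat.eq_zero_or_pos r with hr | hr
  · subst hr
    refine ⟨0, 1, one_ne_zero, ?_⟩
    ext i
    rcases i with i | i <;> exact i.elim0
  have hdet := hG b r ε d Jr hs hJ hpar
  have hJN := isForm_JR hJ
  set R := MvPolynomial (BI b r d) k with hR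
  set L := FractionRing R with hL
  haveI : CharZero L := charZero_of_injective_algebraMap (algebraMap k L).injective
  let θ : L ≃+* L := th k (HI b r d)
  have hθ : ∀ x, θ (θ x) = x := th_th
  let ι : R →ₐ[k] L := IsScalarTower.toAlgHom k R L
  have hιi : Function.Injective ι := IsFractionRing.injective R L
  have hθι : ∀ p : R, θ (ι p) = ι (rename (Sum.swap : BI b r d → BI b r d) p) := th_algebraMap
  let β : BI b r d → L := ι ∘ (X : BI b r d → R)
  have hβ : (thA : L →ₐ[k] L) ∘ β = β ∘ Sum.swap := by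
    funext i
    show θ (ι (X i)) = ι (X (Sum.swap i))
    rw [hθι, rename_X]
  let J : Matrix (Fin r ⊕ Fin r) (Fin r ⊕ Fin r) L := (JR Jr).map (algebraMap k L)
  have hbar : ∀ {m n : Type} (M : Matrix m n L), bar θ M = M.map (thA : L →ₐ[k] L) :=
    fun M => rfl
  have hbA : bar θ (bA ε (JR Jr) β) = bA ε (JR Jr) (β ∘ Sum.swap) := by
    rw [hbar, bA_map, hβ]
  have hbC : bar θ (bC β) = bC (β ∘ Sum.swap) := by
    rw [hbar, bC_map, hβ]
  have hdat : Dat θ (algebraMap k L ε) J (bA ε (JR Jr) β) (bC β) := by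
    refine ⟨hθ, ?_, ?_, ?_, ?_, ?_⟩
    · rcases hJ.eps with h | h
      · left; rw [h, map_one]
      · right; rw [h, map_neg, map_one]
    · ext i j
      exact th_const _
    · ext i j
      have h1 := congrFun (congrFun hJN.symm i) j
      show algebraMap k L (JR Jr j i) = algebraMap k L ε * algebraMap k L (JR Jr i j)
      rw [← map_mul]
      exact congrArg (algebraMap k L) h1
    · have h1 : J.det = algebraMap k L (JR Jr).det := ((algebraMap k L).map_det _).symm
      rw [h1]
      exact (map_ne_zero _).2 hJN.det_ne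
    · exact bA_rel hs hJN.symm β
  have hgam : gam θ (algebraMap k L ε) J (bA ε (JR Jr) β) (bC β) = bGam ε (JR Jr) β := by
    rw [gam, pr, hbA, hbC, transpose_one, Matrix.one_mul, Matrix.mul_one]
    rfl
  have hgamι : (bGam ε (JR Jr) (X : BI b r d → R)).map ι = bGam ε (JR Jr) β := bGam_map ι _
  have hdetι : (bGam ε (JR Jr) β).det = ι (bGam ε (JR Jr) (X : BI b r d → R)).det := by
    rw [← hgamι]
    exact ((ι : R →+* L).map_det _).symm
  have hΓ : (gam θ (algebraMap k L ε) J (bA ε (JR Jr) β) (bC β)).det ≠ 0 := by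
    rw [hgam, hdetι]
    intro h
    exact hdet (hιi (by rw [h, map_zero]))
  have hG2 : bG ε (JR Jr) β = (bGam ε (JR Jr) β).det •
      gg θ (algebraMap k L ε) J (bA ε (JR Jr) β) (bC β) := by
    have h1 : (bGam ε (JR Jr) β).det • (bGam ε (JR Jr) β)⁻¹ = (bGam ε (JR Jr) β).adjugate := by
      rw [Matrix.inv_def, smul_smul, Ring.mul_inverse_cancel _ (isUnit_iff_ne_zero.2
        (by rw [← hgam]; exact hΓ)), one_smul]
    rw [gg, hgam, smul_add, hbC, bG, ← h1]
    simp only [Matrix.smul_mul, Matrix.mul_smul]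
    rfl
  -- `κ`
  obtain ⟨κ, hκ⟩ := IsAlgClosed.exists_pow_nat_eq (-ε) (n := 2) two_pos
  -- diagonalisation
  have hdiag : ∃ (E : Matrix (Fin b) (Fin b) L) (D : Fin b → L), E.det ≠ 0 ∧
      Eᵀ * gam θ (algebraMap k L ε) J (bA ε (JR Jr) β) (bC β) * E.map θ = diagonal D := by
    rcases Nat.eq_zero_or_pos b with hb | hb
    · subst hb
      refine ⟨1, Fin.elim0, by rw [det_one]; exact one_ne_zero, ?_⟩
      ext i
      exact i.elim0
    · refine hD L θ hθ ?_ (algebraMap k L ε) hdat.eps b _ ?_
      · refine ⟨ι (X (Sum.inl (Sum.inl (Sum.inl ⟨0, hr⟩, ⟨0, hb⟩)))), ?_⟩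
        rw [hθι, rename_X]
        intro h
        have h1 := MvPolynomial.X_injective (hιi h)
        cases h1
      · have h1 := bar_gam' hdat
        show _ = algebraMap k L ε • bar θ _
        rw [h1, smul_smul, hdat.sq, one_smul]
  obtain ⟨E, hE0, hEJ⟩ := hyp_core hdat hΓ (algebraMap k L κ)
    (by rw [← map_mul, ← pow_two, hκ, map_neg]) (th_const κ) hdiag
    (fun n _ _ D H₁ H₂ h1 h2 h3 E h4 h5 => hW L θ hθ (algebraMap k L ε) hdat.eps b n D H₁ H₂
      h1 h2 h3 E h4 h5)
  obtain ⟨u, hu⟩ := hE (Fin r ⊕ Fin r) (Fin r ⊕ Fin r) ε (JR Jr) (HE r ε) hJN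
    (isForm_HE hJ.eps) rfl
  have hHE : (HE r ε).map (algebraMap k L) = HE r (algebraMap k L ε) := by
    rw [HE, HE, fromBlocks_map]
    have e1 : (0 : Matrix (Fin r) (Fin r) k).map (algebraMap k L) = 0 := by
      ext i j; simp
    have e2 : (1 : Matrix (Fin r) (Fin r) k).map (algebraMap k L) = 1 := by
      rw [Matrix.map_one _ (map_zero _) (map_one _)]
    have e3 : (ε • (1 : Matrix (Fin r) (Fin r) k)).map (algebraMap k L) =
        algebraMap k L ε • 1 := by
      ext i j
      show algebraMap k L (ε * (1 : Matrix (Fin r) (Fin r) k) i j) =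
        algebraMap k L ε * (1 : Matrix (Fin r) (Fin r) L) i j
      rw [map_mul]
      congr 1
      exact congrFun (congrFun e2 i) j
    rw [e1, e2, e3]
  have huL : (u.map (algebraMap k L))ᵀ * J * u.map (algebraMap k L) =
      HE r (algebraMap k L ε) := by
    rw [← hHE, ← hu, Matrix.map_mul, Matrix.map_mul]
    rfl
  obtain ⟨m1, hm1⟩ := hyp_core' hdat hΓ E hE0 hEJ (u.map (algebraMap k L))
    (HE r (algebraMap k L ε)) huL (by
      ext i j
      exact th_const _)
  obtain ⟨c, hc⟩ := IsLocalization.exist_integer_multiples_of_finite (nonZeroDivisors R)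
    (fun p : (Fin r ⊕ Fin r) × (Fin r ⊕ Fin r) => m1 p.1 p.2)
  choose p hp using hc
  have hc0 : (c : R) ≠ 0 := nonZeroDivisors.coe_ne_zero c
  have hmι : (Matrix.of fun i j => p (i, j)).map ι = ι (c : R) • m1 := by
    ext i j
    have := hp (i, j)
    show algebraMap R L (p (i, j)) = algebraMap R L (c : R) * m1 i j
    rw [this, Algebra.smul_def]
  refine ⟨Matrix.of fun i j => p (i, j), (c : R) * rename (Sum.swap : BI b r d → BI b r d) (c : R) *
    (bGam ε (JR Jr) (X : BI b r d → R)).det, ?_, ?_⟩
  · refine mul_ne_zero (mul_ne_zero hc0 ?_) hdet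
    intro h
    apply hc0
    rw [← swap_swap_rename (k := k) (N := HI b r d) (c : R)]
    show rename _ (rename (Sum.swap : BI b r d → BI b r d) (c : R)) = 0
    rw [h, map_zero]
  · have hinj : Function.Injective
        (fun M : Matrix (Fin r ⊕ Fin r) (Fin r ⊕ Fin r) R => M.map ι) := by
      intro M N h
      exact Matrix.ext fun i j => hιi (congrFun (congrFun h i) j)
    apply hinj
    show Matrix.map _ _ = Matrix.map _ _
    have f1 : ((Matrix.of fun i j => p (i, j))ᵀ).map ι = ι (c : R) • m1ᵀ := by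
      have := congrArg Matrix.transpose hmι
      rw [transpose_smul] at this
      exact this
    have f2 : ((Matrix.of fun i j => p (i, j)).map
        (rename (Sum.swap : BI b r d → BI b r d))).map ι = θ (ι (c : R)) • bar θ m1 := by
      have h1 := congrArg (bar θ) hmι
      rw [bar_smul] at h1
      rw [← h1]
      ext i j
      exact (hθι (p (i, j))).symm
    have f3 : ((JR Jr).map (algebraMap k R)).map ι = J := jn_map ι
    have f4 : (bG ε (JR Jr) (X : BI b r d → R)).map ι = bG ε (JR Jr) β := bG_map ι _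
    have f5 : (((c : R) * rename (Sum.swap : BI b r d → BI b r d) (c : R) *
        (bGam ε (JR Jr) (X : BI b r d → R)).det) • HE r (algebraMap k R ε)).map ι =
        (ι (c : R) * θ (ι (c : R)) * (bGam ε (JR Jr) β).det) • HE r (algebraMap k L ε) := by
      have h1 : (HE r (algebraMap k R ε)).map ι = HE r (algebraMap k L ε) := by
        rw [← hHE]
        ext i j
        rcases i with i | i <;> rcases j with j | j
        · show ι 0 = algebraMap k L 0
          rw [map_zero, map_zero]
        · show ι ((1 : Matrix (Fin r) (Fin r) R) i j) =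
            algebraMap k L ((1 : Matrix (Fin r) (Fin r) k) i j)
          by_cases hij : i = j
          · subst hij
            rw [Matrix.one_apply_eq, Matrix.one_apply_eq, map_one, map_one]
          · rw [Matrix.one_apply_ne hij, Matrix.one_apply_ne hij, map_zero, map_zero]
        · show ι (algebraMap k R ε * (1 : Matrix (Fin r) (Fin r) R) i j) =
            algebraMap k L (ε * (1 : Matrix (Fin r) (Fin r) k) i j)
          by_cases hij : i = j
          · subst hij
            rw [Matrix.one_apply_eq, Matrix.one_apply_eq, mul_one, mul_one]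
            exact ι.commutes ε
          · rw [Matrix.one_apply_ne hij, Matrix.one_apply_ne hij, mul_zero, mul_zero, map_zero,
              map_zero]
        · show ι 0 = algebraMap k L 0
          rw [map_zero, map_zero]
      rw [← h1, hθι, hdetι, ← map_mul, ← map_mul]
      ext i j
      exact map_mul ι _ _
    rw [map_mulA, map_mulA, map_mulA, f1, f2, f3, f4, f5, hG2, ← hm1]
    simp only [Matrix.smul_mul, Matrix.mul_smul, smul_smul, Matrix.mul_assoc]
    congr 1
    ring

end Main

end Pool.Agent.Helper18.CGH
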