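import Pool.Agent.Helper97.CG.Skw

/-!
# Row HYP: the algebra over a field with involution
-/

namespace Pool.Agent.Helper18.CGH

set_option linter.unusedSectionVars false

open Matrix Pool.Agent.Helper97.CG

section Bar

variable {L : Type*} [Field L] (θ : L ≃+* L) {m n l : Type*}

/-- entrywise application of the involution -/
def bar (M : Matrix m n L) : Matrix m n L := M.map θ

lemma bar_add (M N : Matrix m n L) : bar θ (M + N) = bar θ M + bar θ N := by
  ext i j; simp [bar]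

lemma bar_sub (M N : Matrix m n L) : bar θ (M - N) = bar θ M - bar θ N := by
  ext i j; simp [bar]

lemma bar_neg (M : Matrix m n L) : bar θ (-M) = -bar θ M := by
  ext i j; simp [bar]

lemma bar_zero : bar θ (0 : Matrix m n L) = 0 := by
  ext i j; simp [bar]

lemma bar_mul [Fintype n] (M : Matrix m n L) (N : Matrix n l L) :
    bar θ (M * N) = bar θ M * bar θ N :=
  Matrix.map_mul (f := (θ : L →+* L))

lemma bar_transpose (M : Matrix m n L) : bar θ Mᵀ = (bar θ M)ᵀ := rfl

lemma bar_one [DecidableEq n] : bar θ (1 : Matrix n n L) = 1 := by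
  ext i j
  by_cases h : i = j
  · subst h; simp [bar]
  · simp [bar, h]

lemma bar_smul (c : L) (M : Matrix m n L) : bar θ (c • M) = θ c • bar θ M := by
  ext i j; simp [bar]

lemma bar_bar (h : ∀ x, θ (θ x) = x) (M : Matrix m n L) : bar θ (bar θ M) = M := by
  ext i j; simp [bar, h]

lemma det_bar [Fintype n] [DecidableEq n] (M : Matrix n n L) : (bar θ M).det = θ M.det :=
  ((θ : L →+* L).map_det M).symm

lemma bar_diagonal [DecidableEq n] (D : n → L) :
    bar θ (diagonal D) = diagonal (fun j => θ (D j)) := by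
  ext i j
  by_cases h : i = j
  · subst h; simp [bar]
  · simp [bar, h]

end Bar

section Pair

variable {L : Type*} [Field L] {e w p q : Type*} [Fintype e] [DecidableEq e] [Fintype w]
  [DecidableEq w]

/-- pairing of two block columns with respect to `LJ` -/
def pr (ε : L) (J : Matrix w w L) (x1 x2 : Matrix e p L) (x3 : Matrix w p L)
    (y1 y2 : Matrix e q L) (y3 : Matrix w q L) : Matrix p q L :=
  x1ᵀ * y2 + ε • (x2ᵀ * y1) + x3ᵀ * J * y3

lemma mk3_pair (ε : L) (J : Matrix w w L) (a11 a12 : Matrix e e L) (a13 : Matrix e w L)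
    (a21 a22 : Matrix e e L) (a23 : Matrix e w L) (a31 a32 : Matrix w e L) (a33 : Matrix w w L)
    (c11 c12 : Matrix e e L) (c13 : Matrix e w L) (c21 c22 : Matrix e e L)
    (c23 : Matrix e w L) (c31 c32 : Matrix w e L) (c33 : Matrix w w L) :
    (mk3 a11 a12 a13 a21 a22 a23 a31 a32 a33)ᵀ * LJ e ε J *
      mk3 c11 c12 c13 c21 c22 c23 c31 c32 c33 =
    mk3 (pr ε J a11 a21 a31 c11 c21 c31) (pr ε J a11 a21 a31 c12 c22 c32)
        (pr ε J a11 a21 a31 c13 c23 c33)
        (pr ε J a12 a22 a32 c11 c21 c31) (pr ε J a12 a22 a32 c12 c22 c32)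
        (pr ε J a12 a22 a32 c13 c23 c33)
        (pr ε J a13 a23 a33 c11 c21 c31) (pr ε J a13 a23 a33 c12 c22 c32)
        (pr ε J a13 a23 a33 c13 c23 c33) := by
  rw [mk3_transpose, LJ, mk3_mul, mk3_mul]
  congr 1 <;>
  · simp only [pr, Matrix.mul_zero, Matrix.mul_one, Matrix.mul_smul,
      Matrix.smul_mul, zero_add, add_zero]
    abel

variable {ε : L} {J : Matrix w w L}

lemma pr_symm (hε : ε = 1 ∨ ε = -1) (hJ : Jᵀ = ε • J) (x1 x2 : Matrix e p L) (x3 : Matrix w p L)
    (y1 y2 : Matrix e q L) (y3 : Matrix w q L) :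
    pr ε J y1 y2 y3 x1 x2 x3 = ε • (pr ε J x1 x2 x3 y1 y2 y3)ᵀ := by
  simp only [pr, transpose_add, transpose_smul, transpose_mul, transpose_transpose, hJ,
    Matrix.smul_mul, Matrix.mul_smul, Matrix.mul_assoc]
  rcases hε with rfl | rfl
  · simp only [one_smul]; abel
  · simp only [neg_smul, one_smul]; abel

lemma bar_pr (θ : L ≃+* L) (hεθ : θ ε = ε) (hJθ : bar θ J = J) (x1 x2 : Matrix e p L)
    (x3 : Matrix w p L) (y1 y2 : Matrix e q L) (y3 : Matrix w q L) :
    bar θ (pr ε J x1 x2 x3 y1 y2 y3) =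
      pr ε J (bar θ x1) (bar θ x2) (bar θ x3) (bar θ y1) (bar θ y2) (bar θ y3) := by
  simp only [pr, bar_add, bar_smul, bar_mul, bar_transpose, hJθ, hεθ]

lemma pr_solve {A : Matrix e e L} {C : Matrix w e L} {x1 x2 : Matrix e p L} {x3 : Matrix w p L}
    (h : pr ε J 1 A C x1 x2 x3 = 0) : x2 = -(ε • (Aᵀ * x1)) - Cᵀ * J * x3 := by
  simp only [pr, transpose_one, Matrix.one_mul] at h
  have h1 : x2 = x2 - 0 := by rw [sub_zero]
  rw [h1, ← h]
  abel

lemma pr_perp (hε : ε = 1 ∨ ε = -1) (hJ : Jᵀ = ε • J) {A : Matrix e e L} {C : Matrix w e L}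
    (rel : A + ε • Aᵀ + Cᵀ * J * C = 0)
    {x1 x2 : Matrix e p L} {x3 : Matrix w p L} {y1 y2 : Matrix e q L} {y3 : Matrix w q L}
    (hx : pr ε J 1 A C x1 x2 x3 = 0) (hy : pr ε J 1 A C y1 y2 y3 = 0) :
    pr ε J x1 x2 x3 y1 y2 y3 = (x3 - C * x1)ᵀ * J * (y3 - C * y1) := by
  have key : -(x1ᵀ * (A + ε • Aᵀ + Cᵀ * J * C) * y1) = 0 := by
    rw [rel, Matrix.mul_zero, Matrix.zero_mul, neg_zero]
  rw [pr_solve hx, pr_solve hy, pr]
  rw [← sub_eq_zero, ← key]
  simp only [transpose_sub, transpose_neg, transpose_smul, transpose_mul, transpose_transpose, hJ,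
    Matrix.smul_mul, Matrix.mul_smul, Matrix.mul_sub, Matrix.sub_mul, Matrix.mul_add,
    Matrix.add_mul, Matrix.mul_neg, Matrix.neg_mul, Matrix.mul_assoc]
  rcases hε with rfl | rfl
  · simp only [one_smul]
    abel
  · simp only [neg_smul, one_smul]
    abel

end Pair

end Pool.Agent.Helper18.CGH
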