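import Pool.Agent.Helper18.CGH.A

/-!
# Row HYP: the congruence
-/

namespace Pool.Agent.Helper18.CGH

set_option linter.unusedSectionVars false

open Matrix Pool.Agent.Helper97.CG

section Core

variable {L : Type*} [Field L] {w : Type} [Fintype w] [DecidableEq w] {b : ℕ}

/-- the data over a field with involution -/
structure Dat (θ : L ≃+* L) (ε : L) (J : Matrix w w L) (A : Matrix (Fin b) (Fin b) L)
    (C : Matrix w (Fin b) L) : Prop where
  inv : ∀ x, θ (θ x) = x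
  eps : ε = 1 ∨ ε = -1
  thJ : bar θ J = J
  symm : Jᵀ = ε • J
  detJ : J.det ≠ 0
  rel : A + ε • Aᵀ + Cᵀ * J * C = 0

/-- `Γ` -/
def gam (θ : L ≃+* L) (ε : L) (J : Matrix w w L) (A : Matrix (Fin b) (Fin b) L)
    (C : Matrix w (Fin b) L) : Matrix (Fin b) (Fin b) L :=
  pr ε J 1 A C 1 (bar θ A) (bar θ C)

/-- `g` -/
noncomputable def gg (θ : L ≃+* L) (ε : L) (J : Matrix w w L) (A : Matrix (Fin b) (Fin b) L)
    (C : Matrix w (Fin b) L) : Matrix w w L :=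
  1 + (C - bar θ C) * (gam θ ε J A C)⁻¹ * (C - bar θ C)ᵀ * J

variable {θ : L ≃+* L} {ε : L} {J : Matrix w w L} {A : Matrix (Fin b) (Fin b) L}
    {C : Matrix w (Fin b) L}

lemma Dat.thε (h : Dat θ ε J A C) : θ ε = ε := by
  rcases h.eps with h1 | h1
  · rw [h1, map_one]
  · rw [h1, map_neg, map_one]

lemma Dat.sq (h : Dat θ ε J A C) : ε * ε = 1 := by
  rcases h.eps with h1 | h1 <;> rw [h1] <;> ring

/-- `θ(Γ)` is the pairing of `v'` and `v` -/
lemma bar_gam (h : Dat θ ε J A C) :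
    bar θ (gam θ ε J A C) = pr ε J 1 (bar θ A) (bar θ C) 1 A C := by
  rw [gam, bar_pr θ h.thε h.thJ, bar_one, bar_bar θ h.inv, bar_bar θ h.inv]

lemma bar_gam' (h : Dat θ ε J A C) :
    bar θ (gam θ ε J A C) = ε • (gam θ ε J A C)ᵀ := by
  rw [bar_gam h, gam]
  exact pr_symm h.eps h.symm _ _ _ _ _ _

lemma pr_vv (h : Dat θ ε J A C) : pr ε J 1 A C 1 A C = 0 := by
  have := h.rel
  simp only [pr, transpose_one, Matrix.one_mul, Matrix.mul_one]
  exact this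

lemma pr_vv' (h : Dat θ ε J A C) :
    pr ε J (1 : Matrix (Fin b) (Fin b) L) (bar θ A) (bar θ C) 1 (bar θ A) (bar θ C) = 0 := by
  have := congrArg (bar θ) (pr_vv h)
  rw [bar_pr θ h.thε h.thJ, bar_one, bar_zero] at this
  exact this

lemma rel' (h : Dat θ ε J A C) :
    bar θ A + ε • (bar θ A)ᵀ + (bar θ C)ᵀ * J * bar θ C = 0 := by
  have := pr_vv' h
  simp only [pr, transpose_one, Matrix.one_mul, Matrix.mul_one] at this
  exact this

/-- `Δᵀ J Δ = -(Γ + θ(Γ))` -/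
lemma delJdel (h : Dat θ ε J A C) :
    (C - bar θ C)ᵀ * J * (C - bar θ C) = -(gam θ ε J A C + bar θ (gam θ ε J A C)) := by
  rw [bar_gam h, gam]
  simp only [pr, transpose_one, Matrix.one_mul, Matrix.mul_one, transpose_sub, Matrix.mul_sub,
    Matrix.sub_mul]
  have e1 : Cᵀ * J * C = -(A + ε • Aᵀ) := by
    have := h.rel
    exact (neg_eq_of_add_eq_zero_right this).symm
  have e2 : (bar θ C)ᵀ * J * bar θ C = -(bar θ A + ε • (bar θ A)ᵀ) := by
    have := rel' h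
    exact (neg_eq_of_add_eq_zero_right this).symm
  rw [e1, e2]
  abel

lemma det_bar_gam (h : Dat θ ε J A C) (hΓ : (gam θ ε J A C).det ≠ 0) :
    (bar θ (gam θ ε J A C)).det ≠ 0 := by
  rw [det_bar]
  intro h1
  apply hΓ
  rw [← h.inv (gam θ ε J A C).det, h1, map_zero]

lemma bar_inv_mul (hΓ : (gam θ ε J A C).det ≠ 0) :
    bar θ (gam θ ε J A C)⁻¹ * bar θ (gam θ ε J A C) = 1 := by
  rw [← bar_mul, Matrix.nonsing_inv_mul _ (isUnit_iff_ne_zero.2 hΓ), bar_one]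

lemma bar_mul_inv (hΓ : (gam θ ε J A C).det ≠ 0) :
    bar θ (gam θ ε J A C) * bar θ (gam θ ε J A C)⁻¹ = 1 := by
  rw [← bar_mul, Matrix.mul_nonsing_inv _ (isUnit_iff_ne_zero.2 hΓ), bar_one]

lemma bar_del (h : Dat θ ε J A C) : bar θ (C - bar θ C) = -(C - bar θ C) := by
  rw [bar_sub, bar_bar θ h.inv]
  abel

lemma bar_gg (h : Dat θ ε J A C) : bar θ (gg θ ε J A C) =
    1 + (C - bar θ C) * bar θ (gam θ ε J A C)⁻¹ * (C - bar θ C)ᵀ * J := by
  rw [gg, bar_add, bar_one, bar_mul, bar_mul, bar_mul, bar_transpose, bar_del h, h.thJ]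
  simp only [transpose_neg, Matrix.neg_mul, Matrix.mul_neg, neg_neg]

/-- `g θ(g) = 1` -/
lemma gg_mul_bar (h : Dat θ ε J A C) (hΓ : (gam θ ε J A C).det ≠ 0) :
    gg θ ε J A C * bar θ (gg θ ε J A C) = 1 := by
  rw [bar_gg h, gg]
  set Δ := C - bar θ C with hΔ
  set G := gam θ ε J A C with hG
  have h1 : G⁻¹ * G = 1 := Matrix.nonsing_inv_mul _ (isUnit_iff_ne_zero.2 hΓ)
  have h2 : bar θ G * bar θ G⁻¹ = 1 := bar_mul_inv hΓ
  have h3 : Δᵀ * J * Δ = -(G + bar θ G) := delJdel h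
  have h4 : G⁻¹ * (Δᵀ * J * Δ) * bar θ G⁻¹ = -(bar θ G⁻¹ + G⁻¹) := by
    rw [h3, Matrix.mul_neg, Matrix.neg_mul, Matrix.mul_add, Matrix.add_mul, h1, Matrix.one_mul,
      Matrix.mul_assoc G⁻¹, h2, Matrix.mul_one]
  have h5 : Δ * G⁻¹ * Δᵀ * J * (Δ * bar θ G⁻¹ * Δᵀ * J) =
      Δ * (G⁻¹ * (Δᵀ * J * Δ) * bar θ G⁻¹) * Δᵀ * J := by
    simp only [Matrix.mul_assoc]
  rw [Matrix.mul_add, Matrix.mul_one, Matrix.add_mul, Matrix.one_mul, h5, h4]
  simp only [Matrix.mul_add, Matrix.add_mul, Matrix.mul_neg, Matrix.neg_mul]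
  abel

lemma det_gg (h : Dat θ ε J A C) (hΓ : (gam θ ε J A C).det ≠ 0) : (gg θ ε J A C).det ≠ 0 := by
  have := congrArg Matrix.det (gg_mul_bar h hΓ)
  rw [det_mul, det_one] at this
  exact left_ne_zero_of_mul_eq_one this

/-- `T` -/
noncomputable def uT (θ : L ≃+* L) (ε : L) (J : Matrix w w L) (A : Matrix (Fin b) (Fin b) L)
    (C : Matrix w (Fin b) L) : Matrix (Fin b) w L :=
  bar θ (gam θ ε J A C)⁻¹ * (C - bar θ C)ᵀ * J

/-- `T*` -/
noncomputable def uS (θ : L ≃+* L) (ε : L) (J : Matrix w w L) (A : Matrix (Fin b) (Fin b) L)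
    (C : Matrix w (Fin b) L) : Matrix (Fin b) w L :=
  -(ε • (Aᵀ * uT θ ε J A C)) - Cᵀ * J * (1 + C * uT θ ε J A C)

lemma pr_vU : pr ε J 1 A C (uT θ ε J A C) (uS θ ε J A C) (1 + C * uT θ ε J A C) = 0 := by
  simp only [pr, transpose_one, Matrix.one_mul, uS]
  abel

lemma pr_v'U (h : Dat θ ε J A C) (hΓ : (gam θ ε J A C).det ≠ 0) :
    pr ε J 1 (bar θ A) (bar θ C) (uT θ ε J A C) (uS θ ε J A C) (1 + C * uT θ ε J A C) = 0 := by
  have e1 : Cᵀ * J * C = -(A + ε • Aᵀ) := by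
    have := h.rel
    exact (neg_eq_of_add_eq_zero_right this).symm
  have e2 : bar θ (gam θ ε J A C) * uT θ ε J A C = (C - bar θ C)ᵀ * J := by
    rw [uT, ← Matrix.mul_assoc, ← Matrix.mul_assoc, bar_mul_inv hΓ, Matrix.one_mul]
  rw [bar_gam h] at e2
  have e3 : Cᵀ * J * (C * uT θ ε J A C) = -((A + ε • Aᵀ) * uT θ ε J A C) := by
    rw [← Matrix.mul_assoc, e1, Matrix.neg_mul]
  simp only [pr, transpose_one, Matrix.one_mul, Matrix.mul_one, Matrix.add_mul, transpose_sub,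
    Matrix.sub_mul, Matrix.smul_mul] at e2
  simp only [pr, transpose_one, Matrix.one_mul, uS, Matrix.mul_add, Matrix.mul_one, e3,
    Matrix.add_mul, Matrix.smul_mul]
  have e4 : (bar θ C)ᵀ * J * (C * uT θ ε J A C) = (bar θ C)ᵀ * J * C * uT θ ε J A C := by
    rw [← Matrix.mul_assoc]
  rw [e4]
  rw [← sub_eq_zero] at e2
  rw [← e2]
  abel

lemma bar_uT (h : Dat θ ε J A C) : bar θ (uT θ ε J A C) =
    -((gam θ ε J A C)⁻¹ * (C - bar θ C)ᵀ * J) := by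
  rw [uT, bar_mul, bar_mul, bar_bar θ h.inv, bar_transpose, bar_del h, h.thJ]
  simp only [transpose_neg, Matrix.neg_mul, Matrix.mul_neg]

/-- the last block of the congruence -/
lemma pr_UU (h : Dat θ ε J A C) (hΓ : (gam θ ε J A C).det ≠ 0) :
    pr ε J (uT θ ε J A C) (uS θ ε J A C) (1 + C * uT θ ε J A C)
      (bar θ (uT θ ε J A C)) (bar θ (uS θ ε J A C)) (bar θ (1 + C * uT θ ε J A C)) =
    J * gg θ ε J A C := by
  have h1 : pr ε J 1 A C (bar θ (uT θ ε J A C)) (bar θ (uS θ ε J A C))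
      (bar θ (1 + C * uT θ ε J A C)) = 0 := by
    have := congrArg (bar θ) (pr_v'U h hΓ)
    rw [bar_pr θ h.thε h.thJ, bar_one, bar_zero, bar_bar θ h.inv, bar_bar θ h.inv] at this
    exact this
  rw [pr_perp h.eps h.symm h.rel pr_vU h1]
  have h2 : 1 + C * uT θ ε J A C - C * uT θ ε J A C = 1 := by abel
  have h3 : bar θ (1 + C * uT θ ε J A C) - C * bar θ (uT θ ε J A C) = gg θ ε J A C := by
    rw [bar_add, bar_one, bar_mul, bar_uT h, gg]
    simp only [Matrix.mul_neg, Matrix.sub_mul, Matrix.mul_assoc]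
    abel
  rw [h2, h3, transpose_one, Matrix.one_mul]

/-- the matrix `Ω` -/
noncomputable def Om (θ : L ≃+* L) (ε : L) (J : Matrix w w L) (A : Matrix (Fin b) (Fin b) L)
    (C : Matrix w (Fin b) L) : Matrix (Fin b ⊕ (Fin b ⊕ w)) (Fin b ⊕ (Fin b ⊕ w)) L :=
  mk3 1 1 (uT θ ε J A C) (bar θ A) A (uS θ ε J A C) (bar θ C) C (1 + C * uT θ ε J A C)

lemma bar_mk3 {e w : Type*} (a11 a12 : Matrix e e L) (a13 : Matrix e w L)
    (a21 a22 : Matrix e e L) (a23 : Matrix e w L) (a31 a32 : Matrix w e L) (a33 : Matrix w w L) :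
    bar θ (mk3 a11 a12 a13 a21 a22 a23 a31 a32 a33) =
      mk3 (bar θ a11) (bar θ a12) (bar θ a13) (bar θ a21) (bar θ a22) (bar θ a23) (bar θ a31)
        (bar θ a32) (bar θ a33) :=
  mk3_map _ _ _ _ _ _ _ _ _ _

lemma Om_congr (h : Dat θ ε J A C) (hΓ : (gam θ ε J A C).det ≠ 0) :
    (Om θ ε J A C)ᵀ * LJ (Fin b) ε J * bar θ (Om θ ε J A C) =
      dg (bar θ (gam θ ε J A C)) (gam θ ε J A C) (J * gg θ ε J A C) := by
  rw [Om, bar_mk3, mk3_pair, bar_one, bar_bar θ h.inv, bar_bar θ h.inv, pr_UU h hΓ, pr_vv h,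
    pr_vv' h]
  have h1 : pr ε J 1 A C (bar θ (uT θ ε J A C)) (bar θ (uS θ ε J A C))
      (bar θ (1 + C * uT θ ε J A C)) = 0 := by
    have := congrArg (bar θ) (pr_v'U h hΓ)
    rw [bar_pr θ h.thε h.thJ, bar_one, bar_zero, bar_bar θ h.inv, bar_bar θ h.inv] at this
    exact this
  have h2 : pr ε J 1 (bar θ A) (bar θ C) (bar θ (uT θ ε J A C)) (bar θ (uS θ ε J A C))
      (bar θ (1 + C * uT θ ε J A C)) = 0 := by
    have := congrArg (bar θ) (pr_vU (θ := θ) (ε := ε) (J := J) (A := A) (C := C))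
    rw [bar_pr θ h.thε h.thJ, bar_one, bar_zero] at this
    exact this
  have h3 : pr ε J (uT θ ε J A C) (uS θ ε J A C) (1 + C * uT θ ε J A C) 1 A C = 0 := by
    rw [pr_symm h.eps h.symm 1 A C, pr_vU, transpose_zero, smul_zero]
  have h4 : pr ε J (uT θ ε J A C) (uS θ ε J A C) (1 + C * uT θ ε J A C) 1 (bar θ A) (bar θ C) =
      0 := by
    rw [pr_symm h.eps h.symm 1 (bar θ A) (bar θ C), pr_v'U h hΓ, transpose_zero, smul_zero]
  rw [h1, h2, h3, h4, dg, bar_gam h, gam]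

lemma dg_mul {e w : Type*} [Fintype e] [Fintype w] (a a' c c' : Matrix e e L) (Y Z : Matrix w w L) :
    dg a a' Y * dg c c' Z = dg (a * c) (a' * c') (Y * Z) := by
  classical
  rw [dg, dg, dg, mk3_mul]
  simp

lemma dg_transpose {e w : Type*} (a a' : Matrix e e L) (Y : Matrix w w L) :
    (dg a a' Y)ᵀ = dg aᵀ a'ᵀ Yᵀ := by
  rw [dg, dg, mk3_transpose]
  simp

lemma bar_dg {e w : Type*} (a a' : Matrix e e L) (Y : Matrix w w L) :
    bar θ (dg a a' Y) = dg (bar θ a) (bar θ a') (bar θ Y) := by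
  rw [dg, dg, bar_mk3]
  simp only [bar_zero]

lemma dg_fromBlocks {e w : Type*} (a a' : Matrix e e L) (Y : Matrix w w L) :
    dg a a' Y = fromBlocks a 0 0 (fromBlocks a' 0 0 Y) := by
  ext i j
  rcases i with i | i | i <;> rcases j with j | j | j <;> rfl

/-- a basis of the hyperbolic space with diagonal Gram matrix -/
noncomputable def Pm (κ : L) (D : Fin b → L) : Matrix (Fin b ⊕ (Fin b ⊕ w)) (Fin b ⊕ (Fin b ⊕ w)) L :=
  mk3 1 (κ • 1) 0 ((2 : L)⁻¹ • diagonal D) ((-(κ * (2 : L)⁻¹)) • diagonal D) 0 0 0 1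

lemma Pm_congr [CharZero L] (h : Dat θ ε J A C) (κ : L) (hκ : κ * κ = -ε) (hκθ : θ κ = κ)
    (D : Fin b → L) (hD : ∀ j, θ (D j) = ε * D j) :
    (Pm κ D)ᵀ * LJ (Fin b) ε J * bar θ (Pm (w := w) κ D) =
      dg (ε • diagonal D) (diagonal D) J := by
  have hb : bar θ (diagonal D) = ε • diagonal D := by
    rw [bar_diagonal, ← diagonal_smul]
    congr 1
    funext j
    rw [hD j]
    rfl
  have h2 : θ (2 : L)⁻¹ = (2 : L)⁻¹ := by rw [map_inv₀]; congr 1; exact map_ofNat θ 2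
  rw [Pm, bar_mk3, mk3_pair, dg]
  simp only [bar_zero, bar_one, bar_smul, hb, hκθ, h2, map_mul, map_neg, pr, transpose_one,
    transpose_smul, diagonal_transpose, transpose_zero, Matrix.one_mul,
    Matrix.mul_one, Matrix.mul_zero, Matrix.zero_mul, add_zero, zero_add, smul_zero,
    Matrix.smul_mul, Matrix.mul_smul, smul_smul, ← add_smul]
  have e2 : (2 : L) ≠ 0 := two_ne_zero
  have hs := h.sq
  congr 1
  · congr 1
    field_simp
    ring
  · rw [show -(κ * (2:L)⁻¹) * ε + ε * (κ * (2:L)⁻¹) = 0 by ring, zero_smul]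
  · rw [show (2:L)⁻¹ * ε * κ + ε * -(κ * (2:L)⁻¹) = 0 by ring, zero_smul]
  · rw [show -(κ * (2:L)⁻¹) * ε * κ + ε * (κ * -(κ * (2:L)⁻¹)) = 1 by
      have : -(κ * (2:L)⁻¹) * ε * κ + ε * (κ * -(κ * (2:L)⁻¹)) = -(κ * κ) * ε := by
        field_simp
        ring
      rw [this, hκ, neg_neg, hs], one_smul]

lemma det_dg_ne {e w : Type*} [Fintype e] [DecidableEq e] [Fintype w] [DecidableEq w]
    {a a' : Matrix e e L} {Y : Matrix w w L}
    (h1 : a.det ≠ 0) (h2 : a'.det ≠ 0) (h3 : Y.det ≠ 0) : (dg a a' Y).det ≠ 0 := by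
  rw [det_dg]
  exact mul_ne_zero h1 (mul_ne_zero h2 h3)

end Core

end Pool.Agent.Helper18.CGH
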