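import Pool.Agent.Helper18.CGH.B

/-!
# Row HYP: cancellation
-/

namespace Pool.Agent.Helper18.CGH

set_option linter.unusedSectionVars false

open Matrix Pool.Agent.Helper97.CG

section Core

variable {L : Type*} [Field L] {w : Type} [Fintype w] [DecidableEq w] {b : ℕ}
  {θ : L ≃+* L} {ε : L} {J : Matrix w w L} {A : Matrix (Fin b) (Fin b) L}
    {C : Matrix w (Fin b) L}

/-- `J g` is hermitian -/
lemma Jgg_symm (h : Dat θ ε J A C) (hΓ : (gam θ ε J A C).det ≠ 0) :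
    (J * gg θ ε J A C)ᵀ = ε • bar θ (J * gg θ ε J A C) := by
  rw [← pr_UU h hΓ]
  rw [bar_pr θ h.thε h.thJ, bar_bar θ h.inv, bar_bar θ h.inv, bar_bar θ h.inv]
  rw [pr_symm h.eps h.symm (uT θ ε J A C) (uS θ ε J A C) (1 + C * uT θ ε J A C)
    (bar θ (uT θ ε J A C)) (bar θ (uS θ ε J A C)) (bar θ (1 + C * uT θ ε J A C)), smul_smul, h.sq,
    one_smul]

lemma det_smul_diag_ne {D : Fin b → L} (hε : ε * ε = 1) (hD : ∀ j, D j ≠ 0) :
    (ε • diagonal D).det ≠ 0 := by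
  have h1 : ε ≠ 0 := left_ne_zero_of_mul_eq_one hε
  rw [det_smul, det_diagonal]
  exact mul_ne_zero (pow_ne_zero _ h1) (Finset.prod_ne_zero_iff.2 fun j _ => hD j)

lemma det_ne_of_congr {n : Type*} [Fintype n] [DecidableEq n] {P M N : Matrix n n L}
    (h : Pᵀ * M * bar θ P = N) (hN : N.det ≠ 0) : P.det ≠ 0 := by
  intro h1
  apply hN
  rw [← h, det_mul, det_mul, det_transpose, h1, zero_mul, zero_mul]

lemma fb_symm {m n : Type*} [Fintype m] [DecidableEq m] {D : m → L} {H : Matrix n n L}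
    (hD : ∀ j, D j = ε * θ (D j)) (hH : Hᵀ = ε • bar θ H) :
    (fromBlocks (diagonal D) 0 0 H)ᵀ = ε • (fromBlocks (diagonal D) 0 0 H).map θ := by
  have h1 : (fromBlocks (diagonal D) 0 0 H).map θ =
      fromBlocks (bar θ (diagonal D)) 0 0 (bar θ H) := by
    rw [fromBlocks_map, bar, bar]
    have e1 : (0 : Matrix m n L).map θ = 0 := bar_zero θ
    have e2 : (0 : Matrix n m L).map θ = 0 := bar_zero θ
    rw [e1, e2]
  have h2 : diagonal D = ε • bar θ (diagonal D) := by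
    rw [bar_diagonal, ← diagonal_smul]
    congr 1
    funext j
    exact hD j
  rw [h1, fromBlocks_transpose, fromBlocks_smul, smul_zero, smul_zero, transpose_zero,
    transpose_zero, hH, diagonal_transpose, ← h2]

theorem hyp_core [CharZero L] (h : Dat θ ε J A C) (hΓ : (gam θ ε J A C).det ≠ 0)
    (κ : L) (hκ : κ * κ = -ε) (hκθ : θ κ = κ)
    (hdiag : ∃ (E : Matrix (Fin b) (Fin b) L) (D : Fin b → L), E.det ≠ 0 ∧
      Eᵀ * gam θ ε J A C * E.map θ = diagonal D)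
    (hW : ∀ (n : Type) [Fintype n] [DecidableEq n] (D : Fin b → L) (H₁ H₂ : Matrix n n L),
      (∀ j, D j ≠ 0 ∧ D j = ε * θ (D j)) → H₁ᵀ = ε • H₁.map θ → H₂ᵀ = ε • H₂.map θ →
      ∀ E : Matrix (Fin b ⊕ n) (Fin b ⊕ n) L, E.det ≠ 0 →
      Eᵀ * fromBlocks (diagonal D) 0 0 H₁ * E.map θ = fromBlocks (diagonal D) 0 0 H₂ →
      ∃ E' : Matrix n n L, E'.det ≠ 0 ∧ E'ᵀ * H₁ * E'.map θ = H₂) :
    ∃ E' : Matrix w w L, E'.det ≠ 0 ∧ E'ᵀ * J * bar θ E' = J * gg θ ε J A C := by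
  obtain ⟨E, D, hE, hED⟩ := hdiag
  have hED' : Eᵀ * gam θ ε J A C * bar θ E = diagonal D := hED
  have hs := h.sq
  have hbE : (bar θ E).det ≠ 0 := by
    rw [det_bar]
    intro h1
    apply hE
    rw [← h.inv E.det, h1, map_zero]
  have hDdet : (diagonal D).det ≠ 0 := by
    rw [← hED', det_mul, det_mul, det_transpose]
    exact mul_ne_zero (mul_ne_zero hE hΓ) hbE
  have hD0 : ∀ j, D j ≠ 0 := by
    rw [det_diagonal, Finset.prod_ne_zero_iff] at hDdet
    exact fun j => hDdet j (Finset.mem_univ j)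
  have hbED : (bar θ E)ᵀ * bar θ (gam θ ε J A C) * E = bar θ (diagonal D) := by
    rw [← hED', bar_mul, bar_mul, bar_transpose, bar_bar θ h.inv]
  have hDθ : diagonal D = ε • bar θ (diagonal D) := by
    calc diagonal D = (diagonal D)ᵀ := (diagonal_transpose D).symm
      _ = (bar θ E)ᵀ * ((gam θ ε J A C)ᵀ * E) := by
        rw [← hED', transpose_mul, transpose_mul, transpose_transpose]
      _ = ε • ((bar θ E)ᵀ * bar θ (gam θ ε J A C) * E) := by
        rw [bar_gam' h, Matrix.mul_smul, Matrix.smul_mul, smul_smul, hs, one_smul,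
          Matrix.mul_assoc]
      _ = ε • bar θ (diagonal D) := by rw [hbED]
  have hD1 : ∀ j, D j = ε * θ (D j) := by
    intro j
    have := congrFun (congrFun hDθ j) j
    rw [bar_diagonal, Matrix.smul_apply, diagonal_apply_eq, diagonal_apply_eq] at this
    exact this
  have hD2 : ∀ j, θ (D j) = ε * D j := by
    intro j
    have h1 := hD1 j
    calc θ (D j) = (ε * ε) * θ (D j) := by rw [hs, one_mul]
      _ = ε * D j := by rw [mul_assoc, ← h1]
  have hbD : bar θ (diagonal D) = ε • diagonal D := by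
    conv_rhs => rw [hDθ]
    rw [smul_smul, hs, one_smul]
  -- the two congruences
  have c0 := Pm_congr h κ hκ hκθ D hD2
  have c1 : (Om θ ε J A C * dg (bar θ E) E 1)ᵀ * LJ (Fin b) ε J *
      bar θ (Om θ ε J A C * dg (bar θ E) E 1) =
      dg (ε • diagonal D) (diagonal D) (J * gg θ ε J A C) := by
    have e1 : (Om θ ε J A C * dg (bar θ E) E 1)ᵀ * LJ (Fin b) ε J *
        bar θ (Om θ ε J A C * dg (bar θ E) E 1) =
        (dg (bar θ E) E 1)ᵀ * ((Om θ ε J A C)ᵀ * LJ (Fin b) ε J * bar θ (Om θ ε J A C)) *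
          bar θ (dg (bar θ E) E 1) := by
      rw [transpose_mul, bar_mul]
      simp only [Matrix.mul_assoc]
    rw [e1, Om_congr h hΓ, dg_transpose, bar_dg, dg_mul, dg_mul, bar_bar θ h.inv, hbED, hED',
      hbD, bar_one, transpose_one, Matrix.one_mul, Matrix.mul_one]
  have hg : (J * gg θ ε J A C).det ≠ 0 := by
    rw [det_mul]
    exact mul_ne_zero h.detJ (det_gg h hΓ)
  have dP : (Pm (w := w) κ D).det ≠ 0 :=
    det_ne_of_congr c0 (det_dg_ne (det_smul_diag_ne hs hD0) hDdet h.detJ)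
  have dO : (Om θ ε J A C * dg (bar θ E) E 1).det ≠ 0 :=
    det_ne_of_congr c1 (det_dg_ne (det_smul_diag_ne hs hD0) hDdet hg)
  set P := Pm (w := w) κ D with hPdef
  set O := Om θ ε J A C * dg (bar θ E) E 1 with hOdef
  have hPP : P * P⁻¹ = 1 := Matrix.mul_nonsing_inv _ (isUnit_iff_ne_zero.2 dP)
  have hPi : P⁻¹.det ≠ 0 := by
    intro h1
    have := congrArg Matrix.det hPP
    rw [det_mul, h1, mul_zero, det_one] at this
    exact zero_ne_one this
  have c2 : (P⁻¹ * O)ᵀ * dg (ε • diagonal D) (diagonal D) J * bar θ (P⁻¹ * O) =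
      dg (ε • diagonal D) (diagonal D) (J * gg θ ε J A C) := by
    have e1 : (P⁻¹ * O)ᵀ * (Pᵀ * LJ (Fin b) ε J * bar θ P) * bar θ (P⁻¹ * O) =
        (P * (P⁻¹ * O))ᵀ * LJ (Fin b) ε J * bar θ (P * (P⁻¹ * O)) := by
      rw [transpose_mul P, bar_mul θ P]
      simp only [Matrix.mul_assoc]
    have e2 : P * (P⁻¹ * O) = O := by rw [← Matrix.mul_assoc, hPP, Matrix.one_mul]
    rw [← c0, e1, e2, c1]
  have hsd : ε • diagonal D = diagonal (fun j => ε * D j) := by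
    rw [← diagonal_smul]
    rfl
  rw [dg_fromBlocks, dg_fromBlocks, hsd] at c2
  have hε0 : ε ≠ 0 := left_ne_zero_of_mul_eq_one hs
  have hJ' : Jᵀ = ε • bar θ J := by rw [h.thJ]; exact h.symm
  obtain ⟨E1, hE1, c3⟩ := hW (Fin b ⊕ w) (fun j => ε * D j) (fromBlocks (diagonal D) 0 0 J)
    (fromBlocks (diagonal D) 0 0 (J * gg θ ε J A C))
    (fun j => ⟨mul_ne_zero hε0 (hD0 j), by
      show ε * D j = ε * θ (ε * D j)
      rw [map_mul, h.thε, ← hD1 j]⟩)
    (fb_symm hD1 hJ') (fb_symm hD1 (Jgg_symm h hΓ)) (P⁻¹ * O)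
    (by rw [det_mul]; exact mul_ne_zero hPi dO) c2
  obtain ⟨E2, hE2, c4⟩ := hW w D J (J * gg θ ε J A C) (fun j => ⟨hD0 j, hD1 j⟩) hJ'
    (Jgg_symm h hΓ) E1 hE1 c3
  exact ⟨E2, hE2, c4⟩

/-- from the congruence to the hyperbolic form -/
theorem hyp_core' (_h : Dat θ ε J A C) (_hΓ : (gam θ ε J A C).det ≠ 0)
    (E : Matrix w w L) (hE : E.det ≠ 0) (hEJ : Eᵀ * J * bar θ E = J * gg θ ε J A C)
    (u H : Matrix w w L) (hu : uᵀ * J * u = H) (huθ : bar θ u = u) :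
    ∃ m : Matrix w w L, mᵀ * (J * gg θ ε J A C) * bar θ m = H := by
  have hEE : E * E⁻¹ = 1 := Matrix.mul_nonsing_inv _ (isUnit_iff_ne_zero.2 hE)
  have hEb : bar θ E * bar θ E⁻¹ = 1 := by rw [← bar_mul, hEE, bar_one]
  have hEt : E⁻¹ᵀ * Eᵀ = 1 := by rw [← transpose_mul, hEE, transpose_one]
  refine ⟨E⁻¹ * u, ?_⟩
  rw [← hEJ, transpose_mul, bar_mul, huθ, ← hu]
  have e1 : uᵀ * E⁻¹ᵀ * (Eᵀ * J * bar θ E) * (bar θ E⁻¹ * u) =
      uᵀ * (E⁻¹ᵀ * Eᵀ) * J * (bar θ E * bar θ E⁻¹) * u := by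
    simp only [Matrix.mul_assoc]
  rw [e1, hEt, hEb, Matrix.mul_one, Matrix.mul_one]

end Core

end Pool.Agent.Helper18.CGH
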